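import Pool.Agent.Work.MP_12f267_stb.Last

/-!
# MP_12f267_ag : Amitsur's conjecture up to few parameters

Let `A`, `B` be central simple algebras of degree `n` over a field `F` which generate the same
subgroup of the Brauer group.  It is known that `X_A × 𝔸^(n-1)` and `X_B × 𝔸^(n-1)` are birational
over `F`; the conjecture says that no parameters are needed.

Let `t > 0` be an integer such that all prime powers `q` exactly dividing `t` are good (each integer
prime to `q` is `± 2 ^ j` modulo `q`), or such that `[B] = r [A]` where `r` is `± 2 ^ j` modulo each
prime power exactly dividing `t` (with `j = 0` for the power of two).  Then `X_A × 𝔸^N` and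
`X_B × 𝔸^N` are birational over `F` if `t (N + 1) = n`, and also if `t [A]` is the class of a
central simple algebra of degree `N + 1`.

For example, in degree `n = 8`, the smallest open degree, one can take `t = 4` and `N = 1`: one
parameter is enough for all `A`, `B`.  For `n = 2 ^ (k + 2) m` with `m` a product of distinct primes
among 3, 5, 7, 11, 13, 19, 23 one can take `N = 2 ^ k - 1`.

There is no hypothesis on the field `F` or on the subfields of `A` and `B`.

All definitions are in `Pool/Agent/Work/MP_12f267_ag/Statement.lean` and
`Pool/Agent/Work/MP_12f267_stb/Defs.lean`.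
-/

namespace Pool.Agent.Results.MP_12f267_ag.FewParameters

open Pool.Agent.MP12f267

universe u

theorem result (F A B : Type u) [Field F]
    [Ring A] [Algebra F A] [Algebra.IsCentral F A] [IsSimpleRing A] [FiniteDimensional F A]
    [Ring B] [Algebra F B] [Algebra.IsCentral F B] [IsSimpleRing B] [FiniteDimensional F B]
    (n t N : ℕ) (hA : Module.finrank F A = n ^ 2) (hB : Module.finrank F B = n ^ 2)
    (hAB : SameSubgroup F A B) (ht : 0 < t)
    (hgood : GoodPeriod t ∨ ∃ r : ℕ, IsBrauerMultiple F A B r ∧ GoodMultiplier r t)
    (hN : t * (N + 1) = n ∨ ∃ (C : Type u) (_ : Ring C) (_ : Algebra F C),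
      Algebra.IsCentral F C ∧ IsSimpleRing C ∧ Module.finrank F C = (N + 1) ^ 2 ∧
        IsBrauerMultiple F A C t) :
    BirationalTimes F A B N :=
  Stb.stable_final F A B n t N hA hB hAB ht hgood hN

end Pool.Agent.Results.MP_12f267_ag.FewParameters
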