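import Pool.Agent.Work.MP_12f267_ag.Final

/-!
# MP_12f267_ag : Amitsur's conjecture over fields with nilpotent Galois groups

Let `F` be a field such that the Galois group of every finite Galois extension of `F` is nilpotent.
Then Amitsur's conjecture holds over `F`: the Brauer-Severi varieties of two central simple
`F`-algebras of the same degree which generate the same subgroup of the Brauer group are birational
over `F`.

All definitions are in `Pool/Agent/Work/MP_12f267_ag/Statement.lean`.
-/

namespace Pool.Agent.Results.MP_12f267_ag.NilpotentGalois

open Pool.Agent.MP12f267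

universe u

theorem result (F : Type u) [Field F]
    (hF : ∀ (L : Type u) [Field L] [Algebra F L] [FiniteDimensional F L] [IsGalois F L],
      Group.IsNilpotent (L ≃ₐ[F] L))
    (A B : Type u)
    [Ring A] [Algebra F A] [Algebra.IsCentral F A] [IsSimpleRing A] [FiniteDimensional F A]
    [Ring B] [Algebra F B] [Algebra.IsCentral F B] [IsSimpleRing B] [FiniteDimensional F B]
    (n : ℕ) (hA : Module.finrank F A = n ^ 2) (hB : Module.finrank F B = n ^ 2)
    (hAB : SameSubgroup F A B) : Birational F A B :=
  theoremC F A B n (fun L _ _ _ _ => hF L) hA hB hAB

end Pool.Agent.Results.MP_12f267_ag.NilpotentGalois
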