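import Pool.Agent.Work.MP_12f267_p2.All

/-!
# MP_12f267_ag : Amitsur's conjecture over fields where algebras of exponent two are small

Let `d ≤ 2` and let `F` be a field such that, over every separable extension of `F` whose degree is
a power of two, the central division algebras of exponent dividing two have degree dividing
`2 ^ d`.  Let `A`, `B` be central simple algebras of degree `n` over `F` which generate the same
subgroup of the Brauer group, and let `t > 0` be `n` or any number with `t [A] = 0`, such that all
powers of odd primes exactly dividing `t` are good degrees and `d v₂(t) ≤ v₂(n)`.  Then the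
Brauer-Severi varieties of `A` and `B` are birational over `F`.

The definitions are in `Pool/Agent/Work/MP_12f267_ag/Statement.lean` and
`Pool/Agent/Work/MP_12f267_p2/Defs.lean`.
-/

namespace Pool.Agent.Results.MP_12f267_ag.PeriodTwo

open Pool.Agent.MP12f267

universe u

theorem result (F A B : Type u) [Field F]
    [Ring A] [Algebra F A] [Algebra.IsCentral F A] [IsSimpleRing A] [FiniteDimensional F A]
    [Ring B] [Algebra F B] [Algebra.IsCentral F B] [IsSimpleRing B] [FiniteDimensional F B]
    (d n t : ℕ) (hd : d ≤ 2) (hF : PeriodTwoBound F d) (ht0 : 0 < t)
    (ht : t = n ∨ IsBrauerMultiple F A F t) (hgood : GoodOddPart t)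
    (hdt : d * t.factorization 2 ≤ n.factorization 2)
    (hA : Module.finrank F A = n ^ 2) (hB : Module.finrank F B = n ^ 2)
    (hAB : SameSubgroup F A B) : Birational F A B :=
  periodTwo F A B d n t hd hF ht0 ht hgood hdt hA hB hAB

end Pool.Agent.Results.MP_12f267_ag.PeriodTwo
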