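import Pool.Agent.Work.MP_12f267_ag.Final

/-!
# MP_12f267_ag : Amitsur's conjecture for algebras split by towers

Let `A`, `B` be central simple algebras of the same degree `n` over a field `F` which generate the
same subgroup of the Brauer group, and let `A` be a matrix algebra over the central simple algebra
`D` of degree `d`.  Assume that `D` contains a separable field extension `E/F` of degree `d` which
has a tower of intermediate fields in which each step is a cyclic Galois extension or has a degree
`m` such that each integer prime to `m` is `± 2 ^ j` modulo `m`.  Then the Brauer-Severi varieties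
of `A` and `B` are birational over `F`.  Nothing is assumed on the subfields of `B`.

All definitions are in `Pool/Agent/Work/MP_12f267_ag/Statement.lean`.
-/

namespace Pool.Agent.Results.MP_12f267_ag.Towers

open Pool.Agent.MP12f267

universe u

theorem result (F A B D E : Type u) [Field F]
    [Ring A] [Algebra F A] [Algebra.IsCentral F A] [IsSimpleRing A] [FiniteDimensional F A]
    [Ring B] [Algebra F B] [Algebra.IsCentral F B] [IsSimpleRing B] [FiniteDimensional F B]
    [Ring D] [Algebra F D] [Algebra.IsCentral F D] [IsSimpleRing D] [FiniteDimensional F D]
    [Field E] [Algebra F E] [FiniteDimensional F E] [Algebra.IsSeparable F E]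
    (n d t : ℕ) (φ : E →ₐ[F] D) (e : A ≃ₐ[F] Matrix (Fin t) (Fin t) D)
    (hA : Module.finrank F A = n ^ 2) (hB : Module.finrank F B = n ^ 2)
    (hD : Module.finrank F D = d ^ 2) (hE : Module.finrank F E = d) (hT : HasFieldTower F E)
    (hAB : SameSubgroup F A B) : Birational F A B :=
  theoremB F A B D E n d t φ e hA hB hD hE hT hAB

end Pool.Agent.Results.MP_12f267_ag.Towers
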